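import Pool.Agent.helper7.UG.Equiv

set_option autoImplicit false

/-!
# Universal groups of sets of sequences, up to the critical growth

For a set `Λ` of sequences over `{0, 1, 2}` let `NL Λ` be the intersection of the kernels of
`F4 → G_ω` over all `ω` in `Λ`. The quotient `F4 ⧸ NL Λ` is amenable as soon as the series with
terms `2 ^ n / P n` diverges, where `P n` is the number of words of length `n` which begin a
sequence of `Λ`. More precisely, if the quotient is not amenable, then `2 ^ n / A n` is summable,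
where `A n` counts only the words `v` of length `n` whose set of continuations has a nonamenable
universal group.
-/

namespace Pool.Agent.Results.MP_059b7e_al.AmenableUpToCriticalGrowth

open Pool.Agent.helper7.UG

/-- The universal group of `Λ` is not amenable. -/
def Nonamenable (Λ : Set (ℕ → Fin 3)) : Prop := ¬ HasFolner (F4 ⧸ NL Λ)

theorem nonamenable_eq : Nonamenable = Bad := by
  funext Λ
  exact propext ((hasFolner_iff Λ).not.trans not_not)

theorem cnt_mono (P Q : Set (ℕ → Fin 3) → Prop) (h : ∀ Λ, P Λ → Q Λ) (Λ : Set (ℕ → Fin 3))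
    (n : ℕ) : cnt P Λ n ≤ cnt Q Λ n :=
  Set.ncard_le_ncard (fun _ hv => ⟨hv.1, h _ hv.2⟩) (cnt_set_finite Q Λ n)

theorem part_two (Λ : Set (ℕ → Fin 3))
    (h : ¬ Summable fun n : ℕ => (2 : ℝ) ^ n / cnt Set.Nonempty Λ n) :
    HasFolner (F4 ⧸ NL Λ) := by
  rw [hasFolner_iff]
  intro hb
  refine h (Summable.of_nonneg_of_le (fun n => by positivity) (fun n => ?_) (bad_summable hb))
  have h1 : (0 : ℝ) < cnt Bad Λ n := by exact_mod_cast bad_cnt_pos n Λ hb
  refine div_le_div_of_nonneg_left (by positivity) h1 ?_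
  exact_mod_cast cnt_mono Bad Set.Nonempty (fun _ h2 => nonempty_of_tau_lt h2) Λ n

theorem child_omit (z y : Fin 3) (h : y ≠ z) :
    child {ω : ℕ → Fin 3 | ∀ n, ω n ≠ z} y = {ω : ℕ → Fin 3 | ∀ n, ω n ≠ z} := by
  ext ω
  show (∀ n, consω y ω n ≠ z) ↔ ∀ n, ω n ≠ z
  constructor
  · intro h1 n
    exact h1 (n + 1)
  · intro h1 n
    cases n with
    | zero => exact h
    | succ n => exact h1 n

theorem child_omit_self (z : Fin 3) : child {ω : ℕ → Fin 3 | ∀ n, ω n ≠ z} z = ∅ := by
  ext ω
  show (∀ n, consω z ω n ≠ z) ↔ False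
  exact ⟨fun h => h 0 rfl, fun h => h.elim⟩

theorem sect_empty (v : List (Fin 3)) : sect ∅ v = ∅ := by
  induction v with
  | nil => rfl
  | cons y v ih => exact ih

theorem cnt_empty (n : ℕ) : cnt Set.Nonempty ∅ n = 0 := by
  have : {v : List (Fin 3) | v.length = n ∧ (sect ∅ v).Nonempty} = ∅ := by
    ext v
    rw [Set.mem_ofPred_eq, sect_empty]
    simp
  rw [cnt, this, Set.ncard_empty]

theorem cnt_omit (z : Fin 3) (n : ℕ) :
    cnt Set.Nonempty {ω : ℕ → Fin 3 | ∀ n, ω n ≠ z} n = 2 ^ n := by
  induction n with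
  | zero =>
    have hz : ∀ z : Fin 3, z + 1 ≠ z := by decide
    exact cnt_zero _ _ ⟨fun _ => z + 1, fun n => hz z⟩
  | succ n ih =>
    rw [cnt_succ]
    have h1 : ∀ y, cnt Set.Nonempty (child {ω : ℕ → Fin 3 | ∀ n, ω n ≠ z} y) n =
        if y = z then 0 else 2 ^ n := by
      intro y
      split_ifs with h
      · rw [h, child_omit_self, cnt_empty]
      · rw [child_omit z y h, ih]
    simp only [h1]
    rw [Fin.sum_univ_three, pow_succ]
    have h2 : ∀ k : ℕ, ((if (0 : Fin 3) = z then 0 else k) + (if (1 : Fin 3) = z then 0 else k)) +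
        (if (2 : Fin 3) = z then 0 else k) = k * 2 := by
      intro k
      have hz : ∀ z : Fin 3, z = 0 ∨ z = 1 ∨ z = 2 := by decide
      rcases hz z with rfl | rfl | rfl
      · rw [if_pos rfl, if_neg (by decide), if_neg (by decide)]
        ring
      · rw [if_neg (by decide), if_pos rfl, if_neg (by decide)]
        ring
      · rw [if_neg (by decide), if_neg (by decide), if_pos rfl]
        ring
    exact h2 _

/-- The universal group of a set `Λ` of sequences is amenable up to the critical growth `2 ^ n` of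
the number of words which begin a sequence of `Λ`. -/
theorem result :
    (∀ Λ : Set (ℕ → Fin 3), Nonamenable Λ →
      (∀ n, 0 < cnt Nonamenable Λ n) ∧
        Summable fun n : ℕ => (2 : ℝ) ^ n / cnt Nonamenable Λ n) ∧
    (∀ Λ : Set (ℕ → Fin 3), (¬ Summable fun n : ℕ => (2 : ℝ) ^ n / cnt Set.Nonempty Λ n) →
      HasFolner (F4 ⧸ NL Λ)) ∧
    (∀ z : Fin 3, HasFolner (F4 ⧸ NL {ω : ℕ → Fin 3 | ∀ n, ω n ≠ z})) := by
  refine ⟨fun Λ h => ?_, part_two, fun z => part_two _ ?_⟩
  · rw [nonamenable_eq] at h ⊢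
    exact ⟨fun n => bad_cnt_pos n Λ h, bad_summable h⟩
  · have h1 : (fun n : ℕ => (2 : ℝ) ^ n /
        cnt Set.Nonempty {ω : ℕ → Fin 3 | ∀ n, ω n ≠ z} n) = fun _ => 1 := by
      funext n
      rw [cnt_omit]
      push_cast
      exact div_self (by positivity)
    rw [h1, summable_const_iff]
    exact one_ne_zero

end Pool.Agent.Results.MP_059b7e_al.AmenableUpToCriticalGrowth
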