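import Pool.Agent.helper10.NA.Final

set_option autoImplicit false

/-!
# The universal group of the Grigorchuk groups is not amenable

`F4 = FreeGroup (Fin 4)` is the free group on `a, b, c, d` (numbered `0, 1, 2, 3`),
`homω ω : F4 →* Equiv.Perm (List Bool)` is the homomorphism onto `G_ω`, and
`NL Set.univ` is the intersection of the kernels of all the `homω ω`.
-/

namespace Pool.Agent.Results.MP_059b7e_al.NotAmenable

open Pool.Agent.helper7.UG

/-- The universal group `F4 ⧸ ⋂ N_ω` has no Følner sequence. -/
theorem result : ¬ HasFolner (F4 ⧸ NL (Set.univ : Set (ℕ → Fin 3))) :=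
  Pool.Agent.helper10.NA.result'

end Pool.Agent.Results.MP_059b7e_al.NotAmenable
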